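import Pool.Agent.Helper60.MEI.R8

/-!
# Project MEI (M2), w-term: the weights of a table, all rows at once

`Cor.w Q i` is the `i`-th entry of the list `wq Q`, which the kernel evaluates in one pass.
-/

set_option autoImplicit false

namespace Helper90.R8T

open Helper60.R8

/-- sum of two lists, entry by entry -/
def ad : List ℕ → List ℕ → List ℕ
  | [], L => L
  | a :: A, [] => a :: A
  | a :: A, b :: B => Nat.add a b :: ad A B

/-- multiple of a list -/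
def sc (k : ℕ) : List ℕ → List ℕ
  | [] => []
  | a :: A => Nat.mul a k :: sc k A

theorem ad_getD : ∀ (A B : List ℕ) (i : ℕ), (ad A B).getD i 0 = A.getD i 0 + B.getD i 0
  | [], L, i => by simp [ad]
  | a :: A, [], i => by simp [ad]
  | a :: A, b :: B, 0 => by simp [ad]
  | a :: A, b :: B, i + 1 => by simpa [ad] using ad_getD A B i

theorem sc_getD (k : ℕ) : ∀ (A : List ℕ) (i : ℕ), (sc k A).getD i 0 = A.getD i 0 * k
  | [], i => by simp [sc]
  | a :: A, 0 => by simp [sc]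
  | a :: A, i + 1 => by simpa [sc] using sc_getD k A i

/-- the weights of all rows -/
def wl : Tr → ℕ → ℕ → ℕ → ℕ → List ℕ
  | .lf c, x0, x1, y0, y1 =>
    sc (Nat.mul (Nat.mul (Nat.sub x1 x0) (Nat.sub y1 y0)) c.M)
      (ad (ad (ad c.o00 c.o01) c.o10) c.o11)
  | .em, _, _, _, _ => []
  | .tp, _, _, _, _ => []
  | .sx a l r, x0, x1, y0, y1 => ad (wl l x0 a y0 y1) (wl r a x1 y0 y1)
  | .sy b l r, x0, x1, y0, y1 => ad (wl l x0 x1 y0 b) (wl r x0 x1 b y1)

theorem wl_getD (i : ℕ) : ∀ (T : Tr) (x0 x1 y0 y1 : ℕ),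
    (wl T x0 x1 y0 y1).getD i 0 = T.wt i x0 x1 y0 y1
  | .lf c, x0, x1, y0, y1 => by
    simp only [wl, Tr.wt, sc_getD, ad_getD]
    exact (mul_assoc _ _ _).symm
  | .em, _, _, _, _ => by simp [wl, Tr.wt]
  | .tp, _, _, _, _ => by simp [wl, Tr.wt]
  | .sx a l r, x0, x1, y0, y1 => by
    simp only [wl, Tr.wt, ad_getD, wl_getD i l, wl_getD i r]
  | .sy b l r, x0, x1, y0, y1 => by
    simp only [wl, Tr.wt, ad_getD, wl_getD i l, wl_getD i r]

/-- the weights of a corner -/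
def wq (Q : Cor) : List ℕ := wl Q.T 0 500000 0 500000

theorem wq_getD (Q : Cor) (i : ℕ) : Q.w i = (wq Q).getD i 0 :=
  (wl_getD i Q.T 0 500000 0 500000).symm

/-- all weights from the evaluated list -/
theorem w_of {Q : Cor} {L : List ℕ} (h : wq Q = L) (i : ℕ) : Q.w i = L.getD i 0 := by
  rw [wq_getD, h]

/-! ### Gluing of subtrees: each subtree is evaluated in a theorem of its own -/

theorem ck_sx {rows : List Row} {A c0 c1 nl ne h a x0 x1 y0 y1 : ℕ} {l r : Tr}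
    (h1 : l.ck rows A c0 c1 nl ne h x0 a y0 y1 = true)
    (h2 : r.ck rows A c0 c1 nl ne h a x1 y0 y1 = true) :
    (Tr.sx a l r).ck rows A c0 c1 nl ne h x0 x1 y0 y1 = true := by
  rw [Tr.ck, h1, h2]
  rfl

theorem ck_sy {rows : List Row} {A c0 c1 nl ne h b x0 x1 y0 y1 : ℕ} {l r : Tr}
    (h1 : l.ck rows A c0 c1 nl ne h x0 x1 y0 b = true)
    (h2 : r.ck rows A c0 c1 nl ne h x0 x1 b y1 = true) :
    (Tr.sy b l r).ck rows A c0 c1 nl ne h x0 x1 y0 y1 = true := by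
  rw [Tr.ck, h1, h2]
  rfl

theorem wl_sx {a x0 x1 y0 y1 : ℕ} {l r : Tr} {L1 L2 L : List ℕ} (h1 : wl l x0 a y0 y1 = L1)
    (h2 : wl r a x1 y0 y1 = L2) (h : ad L1 L2 = L) : wl (.sx a l r) x0 x1 y0 y1 = L := by
  rw [wl, h1, h2, h]

theorem wl_sy {b x0 x1 y0 y1 : ℕ} {l r : Tr} {L1 L2 L : List ℕ} (h1 : wl l x0 x1 y0 b = L1)
    (h2 : wl r x0 x1 b y1 = L2) (h : ad L1 L2 = L) : wl (.sy b l r) x0 x1 y0 y1 = L := by
  rw [wl, h1, h2, h]

end Helper90.R8T
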