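import Pool.Agent.Helper60.MEI.R9T
import Pool.Agent.Helper90.R8T.WL

/-!
# Project MEI (M2), w-term: tables of rule R9 (families), gluing and printing

`mb c las ..` = the leaf with the skeleton of `c` and other multipliers and values.
-/

set_option autoImplicit false

namespace Helper90.R8T

open Helper60.R8

/-- the same intervals with other multipliers -/
def lz : List Iv → List ℕ → List Iv
  | [], _ => []
  | I :: L, [] => I :: L
  | I :: L, a :: A => ⟨I.u, I.v, I.ru, I.rv, I.ty, a, I.ps, I.li, I.ei⟩ :: lz L A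

/-- a member of a family at a leaf -/
def mb (c : Lf) (las o00 o01 o10 o11 : List ℕ) : Lf :=
  ⟨c.m00, c.m01, c.m10, c.m11, c.o, c.m0, c.M, lz c.iv las, o00, o01, o10, o11⟩

/-- number of admissible loads: fewer near the walls -/
def nw (a n1 n : ℕ) (x0 y0 : ℕ) : ℕ := bif Nat.blt x0 a || Nat.blt y0 a then n1 else n

theorem ckf_sx {rows : List Row} {A c0 c1 ne h a x0 x1 y0 y1 : ℕ} {nf : ℕ → ℕ → ℕ} {l r : Tr}
    (h1 : l.ckf rows A c0 c1 nf ne h x0 a y0 y1 = true)
    (h2 : r.ckf rows A c0 c1 nf ne h a x1 y0 y1 = true) :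
    (Tr.sx a l r).ckf rows A c0 c1 nf ne h x0 x1 y0 y1 = true := by
  rw [Tr.ckf, h1, h2]
  rfl

theorem ckf_sy {rows : List Row} {A c0 c1 ne h b x0 x1 y0 y1 : ℕ} {nf : ℕ → ℕ → ℕ} {l r : Tr}
    (h1 : l.ckf rows A c0 c1 nf ne h x0 x1 y0 b = true)
    (h2 : r.ckf rows A c0 c1 nf ne h x0 x1 b y1 = true) :
    (Tr.sy b l r).ckf rows A c0 c1 nf ne h x0 x1 y0 y1 = true := by
  rw [Tr.ckf, h1, h2]
  rfl

end Helper90.R8T
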